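import Pool.Agent.Helper58.QD.StF

/-! # Project QD, module Glb: lower bound for the gradient of an almost convex function -/

set_option autoImplicit false

namespace Pool.Agent.Helper1.QD

open Helper62.LH Helper62.DSH Helper58.QD MeasureTheory Set Filter Topology
open scoped ContDiff ENNReal

private theorem mono_Glb {h h' : ℝ → ℝ}
    (hd : ∀ t ∈ Icc (0 : ℝ) 1, HasDerivWithinAt h (h' t) (Icc 0 1) t)
    (h0 : ∀ t ∈ Icc (0 : ℝ) 1, 0 ≤ h' t) : MonotoneOn h (Icc 0 1) := by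
  refine monotoneOn_of_hasDerivWithinAt_nonneg (f' := h') (convex_Icc 0 1)
    (fun t ht => (hd t ht).continuousWithinAt) ?_ ?_
  · intro t ht
    have ht' := interior_subset ht
    exact (hd t ht').mono interior_subset
  · intro t ht
    exact h0 t (interior_subset ht)

theorem hGlb : StMet → StDlc → StMg → StRgc → StIna → SGlb := by
  intro hMet _ hMg hRgc hIna n g Γ hg hΓ hC p b κ r0 hB
  have hκ := hB.kpos
  have hT00 : (1 : ℝ) ≤ 4 * (2 * (|b p| + 2) + |r0| + 1) + 1 := by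
    have : (0 : ℝ) ≤ 4 * (2 * (|b p| + 2) + |r0| + 1) := by positivity
    linarith
  refine ⟨4 * (2 * (|b p| + 2) + |r0| + 1) + 1, hT00, ?_⟩
  · intro T b' ε0 hT hb' hbb hε0 hεT hH x hx1 hx2
    have habs1 := le_abs_self (b p)
    have habs2 := le_abs_self r0
    have habs3 := abs_nonneg (b p)
    have habs4 := abs_nonneg r0
    obtain ⟨hxa, hxb⟩ := abs_le.1 (hbb x)
    obtain ⟨hpa, hpb⟩ := abs_le.1 (hbb p)
    have hbx : 2 * (|b p| + 2) + |r0| + 1 / 4 ≤ b x := by linarith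
    set d : ℝ := dg g p x with hd
    have hlip := hB.lip x p
    have hsymm : dg g x p = d := by
      obtain ⟨-, -, -, -, h5, -⟩ := hMet n g hg
      rw [hd, h5]
    rw [hsymm] at hlip
    have hdb : b x - b p ≤ d := (le_abs_self _).trans hlip
    have hd0 : 0 < d := by linarith
    have hr0 : r0 ≤ d := by linarith
    have hgro : κ * d ≤ b x := hB.gro x hr0
    obtain ⟨c, hc⟩ := hMg n g hg hC p x
    obtain ⟨v, hv, hvn⟩ := hRgc n g Γ hg hΓ c p x hc
    have hc0 : c 0 = p := hc.1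
    have hc1 : c 1 = x := hc.2.1
    have hb1 : ∀ y, HasFDerivAt b' (fderiv ℝ b' y) y := fun y =>
      (hb'.differentiable (by simp)).differentiableAt.hasFDerivAt
    have hb2s : ContDiff ℝ ∞ (fderiv ℝ b') := hb'.fderiv_right (m := ∞) (by simp)
    have hb2 : ∀ y, HasFDerivAt (fderiv ℝ b') (fderiv ℝ (fderiv ℝ b') y) y := fun y =>
      (hb2s.differentiable (by simp)).differentiableAt.hasFDerivAt
    have hφ : ∀ t ∈ Icc (0 : ℝ) 1, HasDerivWithinAt (fun t => b' (c t))
        (fderiv ℝ b' (c t) (v t)) (Icc 0 1) t := fun t ht =>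
      (hb1 (c t)).comp_hasDerivWithinAt t (hv.dc t ht)
    have hψ : ∀ t ∈ Icc (0 : ℝ) 1, HasDerivWithinAt (fun t => fderiv ℝ b' (c t) (v t))
        (Hs Γ b' (c t) (v t) (v t)) (Icc 0 1) t := by
      intro t ht
      have h1 : HasDerivWithinAt (fun t => fderiv ℝ b' (c t))
          (fderiv ℝ (fderiv ℝ b') (c t) (v t)) (Icc 0 1) t :=
        (hb2 (c t)).comp_hasDerivWithinAt t (hv.dc t ht)
      have h2 := h1.clm_apply (hv.dv t ht)
      have h3 : Hs Γ b' (c t) (v t) (v t) = (fderiv ℝ (fderiv ℝ b') (c t) (v t)) (v t) +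
          (fderiv ℝ b' (c t)) (-(Γ (c t) (v t) (v t))) := by
        unfold Hs
        rw [map_neg]
        ring
      rw [h3]
      exact h2
    have hd2 : ∀ t ∈ Icc (0 : ℝ) 1, -(ε0 * d ^ 2) ≤ Hs Γ b' (c t) (v t) (v t) := by
      intro t ht
      have h1 := hH (c t) (v t)
      rw [hvn t ht] at h1
      exact h1
    -- first integration
    have hm1 : MonotoneOn (fun t => fderiv ℝ b' (c t) (v t) + ε0 * d ^ 2 * t) (Icc 0 1) := by
      refine mono_Glb (h' := fun t => Hs Γ b' (c t) (v t) (v t) + ε0 * d ^ 2) ?_ ?_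
      · intro t ht
        have h1 : HasDerivWithinAt (fun t : ℝ => ε0 * d ^ 2 * t) (ε0 * d ^ 2) (Icc 0 1) t := by
          simpa using (hasDerivWithinAt_id t (Icc (0 : ℝ) 1)).const_mul (ε0 * d ^ 2)
        exact (hψ t ht).add h1
      · intro t ht
        have := hd2 t ht
        show 0 ≤ Hs Γ b' (c t) (v t) (v t) + ε0 * d ^ 2
        linarith
    have h1mem : (1 : ℝ) ∈ Icc (0 : ℝ) 1 := ⟨zero_le_one, le_rfl⟩
    have h0mem : (0 : ℝ) ∈ Icc (0 : ℝ) 1 := ⟨le_rfl, zero_le_one⟩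
    set ψ1 : ℝ := fderiv ℝ b' (c 1) (v 1) with hψ1
    have hψle : ∀ t ∈ Icc (0 : ℝ) 1, fderiv ℝ b' (c t) (v t) + ε0 * d ^ 2 * t ≤
        ψ1 + ε0 * d ^ 2 := by
      intro t ht
      have h1 := hm1 ht h1mem ht.2
      simp only [mul_one] at h1
      exact h1
    -- second integration
    have hm2 : MonotoneOn (fun t => (ψ1 + ε0 * d ^ 2) * t - ε0 * d ^ 2 * t ^ 2 / 2 - b' (c t))
        (Icc 0 1) := by
      refine mono_Glb (h' := fun t => (ψ1 + ε0 * d ^ 2) - ε0 * d ^ 2 * t -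
        fderiv ℝ b' (c t) (v t)) ?_ ?_
      · intro t ht
        have h1 : HasDerivAt (fun t : ℝ => (ψ1 + ε0 * d ^ 2) * t - ε0 * d ^ 2 * t ^ 2 / 2)
            ((ψ1 + ε0 * d ^ 2) - ε0 * d ^ 2 * t) t := by
          have h2 : HasDerivAt (fun t : ℝ => (ψ1 + ε0 * d ^ 2) * t) (ψ1 + ε0 * d ^ 2) t := by
            simpa using (hasDerivAt_id t).const_mul (ψ1 + ε0 * d ^ 2)
          have h3 : HasDerivAt (fun t : ℝ => ε0 * d ^ 2 * t ^ 2 / 2) (ε0 * d ^ 2 * t) t := by
            have h4 := ((hasDerivAt_pow 2 t).const_mul (ε0 * d ^ 2)).div_const 2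
            refine h4.congr_deriv ?_
            push_cast
            ring
          exact h2.sub h3
        exact h1.hasDerivWithinAt.sub (hφ t ht)
      · intro t ht
        have := hψle t ht
        show 0 ≤ (ψ1 + ε0 * d ^ 2) - ε0 * d ^ 2 * t - fderiv ℝ b' (c t) (v t)
        linarith
    have hfin := hm2 h0mem h1mem zero_le_one
    simp only [hc0, hc1] at hfin
    have hmain : b' x - b' p ≤ ψ1 + ε0 * d ^ 2 / 2 := by nlinarith
    -- the value at one
    have hvn1 : g x (v 1) (v 1) = d ^ 2 := by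
      have := hvn 1 h1mem
      rwa [hc1] at this
    have hnr : nr g x (v 1) = d := by
      unfold nr
      rw [hvn1, Real.sqrt_sq hd0.le]
    obtain ⟨i1, -, -, -, i5, -⟩ := hIna n g hg x
    have hψ1le : ψ1 ≤ √(gs g b' x) * d := by
      have h1 := i5 (fderiv ℝ b' x) (v 1)
      rw [hnr] at h1
      rw [hψ1, hc1]
      exact (le_abs_self _).trans h1
    have hgs0 : 0 ≤ gs g b' x := i1 _
    set s : ℝ := √(gs g b' x) with hs
    have hs2 : s ^ 2 = gs g b' x := Real.sq_sqrt hgs0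
    have hs0 : 0 ≤ s := Real.sqrt_nonneg _
    have hT1 : 1 ≤ T := by
      have : (0 : ℝ) ≤ 4 * (2 * (|b p| + 2) + |r0| + 1) := by positivity
      linarith
    -- combine
    have h1 : κ * d / 2 ≤ s * d + ε0 * d ^ 2 / 2 := by linarith
    have h2 : κ / 2 ≤ s + ε0 * d / 2 := by
      have h3 : d * (κ / 2) ≤ d * (s + ε0 * d / 2) := by nlinarith
      exact le_of_mul_le_mul_left h3 hd0
    have h4 : κ * d ≤ 7 * T := by linarith
    have h5 : ε0 * d ≤ κ / 2 := by
      have h6 : κ * (ε0 * d) ≤ κ * (κ / 2) := by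
        have h7 : ε0 * (κ * d) ≤ ε0 * (7 * T) := mul_le_mul_of_nonneg_left h4 hε0
        nlinarith [sq_nonneg κ]
      exact le_of_mul_le_mul_left h6 hκ
    have h6 : κ / 4 ≤ s := by linarith
    rw [← hs2]
    nlinarith

end Pool.Agent.Helper1.QD
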