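import Pool.Agent.Helper58.QD.StM

/-! # Project QD, module Mve: mean value inequality for minimal primitives -/

set_option autoImplicit false

namespace Pool.Agent.Helper1.QD

open Helper62.LH Helper62.DSH Helper58.QD MeasureTheory Set Filter Topology
open scoped ContDiff ENNReal

variable {n : ℕ}

/-! ### elementary inequalities for the truncation -/

private theorem tau_nonneg_Mve {T s : ℝ} (hT : 0 < T) (hs : 0 ≤ s) : 0 ≤ tau T s := by
  unfold tau
  positivity

private theorem tau_le_Mve {T s : ℝ} (hT : 0 < T) (hs : 0 ≤ s) : tau T s ≤ T := by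
  unfold tau
  have h : 0 < T + s := by linarith
  rw [div_le_iff₀ h]
  nlinarith

private theorem tau_lip_Mve {T a b : ℝ} (hT : 0 < T) (ha : 0 ≤ a) (hb : 0 ≤ b) :
    |tau T a - tau T b| * b ≤ T * |a - b| := by
  unfold tau
  have h1 : 0 < T + a := by linarith
  have h2 : 0 < T + b := by linarith
  have h3 : T * a / (T + a) - T * b / (T + b) = (T * T) * (a - b) / ((T + a) * (T + b)) := by
    field_simp
    ring
  rw [h3, abs_div, abs_mul, abs_of_pos (mul_pos h1 h2), abs_of_pos (mul_pos hT hT), div_mul_eq_mul_div,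
    div_le_iff₀ (mul_pos h1 h2)]
  have h4 : T * b ≤ (T + a) * (T + b) := by nlinarith [mul_nonneg ha hb, mul_pos hT hT, mul_nonneg hT.le ha]
  have h5 : 0 ≤ T * |a - b| := by positivity
  nlinarith [mul_le_mul_of_nonneg_left h4 h5]

private theorem flip_Mve {T a b : ℝ} (hT : 0 < T) (ha : 0 ≤ a) (hb : 0 ≤ b) (q : ℕ) :
    |tau T a ^ q * a - tau T b ^ q * b| ≤ (q + 1) * T ^ q * |a - b| := by
  induction q with
  | zero => simp
  | succ q ih =>
    have h1 : tau T a ^ (q + 1) * a - tau T b ^ (q + 1) * b =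
        tau T a * (tau T a ^ q * a - tau T b ^ q * b) + tau T b ^ q * ((tau T a - tau T b) * b) := by
      ring
    have h2 := tau_nonneg_Mve hT ha
    have h3 := tau_le_Mve hT ha
    have h4 := tau_nonneg_Mve hT hb
    have h5 := tau_le_Mve hT hb
    have h6 := tau_lip_Mve hT ha hb
    have h7 : tau T b ^ q ≤ T ^ q := pow_le_pow_left₀ h4 h5 q
    have h8 : |tau T a * (tau T a ^ q * a - tau T b ^ q * b)| ≤ T * ((q + 1) * T ^ q * |a - b|) := by
      rw [abs_mul, abs_of_nonneg h2]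
      exact mul_le_mul h3 ih (abs_nonneg _) hT.le
    have h9 : |tau T b ^ q * ((tau T a - tau T b) * b)| ≤ T ^ q * (T * |a - b|) := by
      rw [abs_mul, abs_of_nonneg (pow_nonneg h4 q), abs_mul, abs_of_nonneg hb]
      exact mul_le_mul h7 h6 (by positivity) (by positivity)
    rw [h1]
    refine (abs_add_le _ _).trans ((add_le_add h8 h9).trans (le_of_eq ?_))
    push_cast
    ring

/-! ### locally square integrable functions -/

private theorem L2l_sub_Mve {u v : E n → ℝ} (hu : L2l u) (hv : L2l v) :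
    L2l (fun x => u x - v x) := by
  refine ⟨hu.1.sub hv.1, fun K hK => ?_⟩
  have h1 : IntegrableOn (fun x => 2 * u x ^ 2 + 2 * v x ^ 2) K :=
    ((hu.2 K hK).const_mul 2).add ((hv.2 K hK).const_mul 2)
  refine Integrable.mono' h1 ((hu.1.sub hv.1).pow 2).restrict ?_
  refine Eventually.of_forall fun x => ?_
  rw [Real.norm_eq_abs, abs_of_nonneg (sq_nonneg _)]
  nlinarith [sq_nonneg (u x + v x)]

private theorem L2l_cont_Mve {u : E n → ℝ} (hu : Continuous u) : L2l u :=
  ⟨hu.aestronglyMeasurable, fun _ hK => (hu.pow 2).continuousOn.integrableOn_compact hK⟩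

private theorem q2_eq_Mve (hNrm : TNrm) {j : ℕ} (v : E n → Tn n j) :
    (fun y => q2 (v y)) = fun y => (∑ I, v y I ^ 2) / (j.factorial : ℝ) := by
  funext y
  exact ((hNrm n j).1 (v y)).2.2

private theorem q2_aesm_Mve (hNrm : TNrm) {j : ℕ} {v : E n → Tn n j} (hv : L2t v) :
    AEStronglyMeasurable (fun y => q2 (v y)) volume := by
  rw [q2_eq_Mve hNrm]
  simp only [div_eq_mul_inv]
  refine AEStronglyMeasurable.mul_const ?_ _
  exact Finset.aestronglyMeasurable_fun_sum _ fun I _ => (hv I).1.pow 2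

private theorem q2_int_Mve (hNrm : TNrm) {j : ℕ} {v : E n → Tn n j} (hv : L2t v) {K : Set (E n)}
    (hK : IsCompact K) {V : E n → ℝ} (hV : Continuous V) :
    IntegrableOn (fun y => q2 (v y) * V y) K := by
  have h1 : IntegrableOn (fun y => q2 (v y)) K := by
    rw [q2_eq_Mve hNrm]
    refine Integrable.div_const ?_ _
    exact integrable_finsetSum _ fun I _ => (hv I).2 K hK
  exact h1.mul_continuousOn hV.continuousOn hK

/-! ### integrals of truncated powers -/

private theorem tau_aesm_Mve {w : E n → ℝ} (hw : AEStronglyMeasurable w volume) (T : ℝ) :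
    AEStronglyMeasurable (fun y => tau T (w y)) volume := by
  unfold tau
  have h1 : AEMeasurable w volume := hw.aemeasurable
  exact ((h1.const_mul T).div (h1.const_add T)).aestronglyMeasurable

private theorem ftau_int_Mve {w : E n → ℝ} (hw : AEStronglyMeasurable w volume) (h0 : ∀ y, 0 ≤ w y)
    {V : E n → ℝ} (hV : Continuous V) {S : Set (E n)}
    (hi : IntegrableOn (fun y => w y * V y) S) {T : ℝ} (hT : 0 < T) (q : ℕ) (c : E n → ℝ)
    (hc : Continuous c) (hc1 : ∀ y, |c y| ≤ 1) :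
    IntegrableOn (fun y => c y * (tau T (w y) ^ q * w y * V y)) S := by
  refine Integrable.mono' (hi.norm.const_mul (T ^ q)) ?_ ?_
  · exact (hc.aestronglyMeasurable.mul ((((tau_aesm_Mve hw T).pow q).mul hw).mul
      hV.aestronglyMeasurable)).restrict
  · refine Eventually.of_forall fun y => ?_
    have h2 := tau_nonneg_Mve hT (h0 y)
    have h3 := tau_le_Mve hT (h0 y)
    have h4 : tau T (w y) ^ q ≤ T ^ q := pow_le_pow_left₀ h2 h3 q
    have e1 : ‖c y * (tau T (w y) ^ q * w y * V y)‖ = |c y| * (tau T (w y) ^ q * ‖w y * V y‖) := by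
      rw [norm_mul, Real.norm_eq_abs, mul_assoc, norm_mul, Real.norm_eq_abs,
        abs_of_nonneg (pow_nonneg h2 q)]
    rw [e1]
    have h5 : 0 ≤ tau T (w y) ^ q * ‖w y * V y‖ := mul_nonneg (pow_nonneg h2 q) (norm_nonneg _)
    refine (mul_le_of_le_one_left h5 (hc1 y)).trans ?_
    exact mul_le_mul_of_nonneg_right h4 (norm_nonneg _)

private theorem stab_Mve {w w' : E n → ℝ} (hw : AEStronglyMeasurable w volume)
    (h0 : ∀ y, 0 ≤ w y) (hw' : AEStronglyMeasurable w' volume) (h0' : ∀ y, 0 ≤ w' y)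
    {V : E n → ℝ} (hV : Continuous V) (hV0 : ∀ y, 0 < V y) {S : Set (E n)}
    (hi : IntegrableOn (fun y => w y * V y) S) (hi' : IntegrableOn (fun y => w' y * V y) S)
    {T : ℝ} (hT : 0 < T) (q : ℕ) (c : E n → ℝ)
    (hc : Continuous c) (hc1 : ∀ y, |c y| ≤ 1) :
    |(∫ y in S, c y * (tau T (w' y) ^ q * w' y * V y)) -
      ∫ y in S, c y * (tau T (w y) ^ q * w y * V y)| ≤
      (q + 1) * T ^ q * ∫ y in S, |w' y - w y| * V y := by
  have i1 := ftau_int_Mve hw h0 hV hi hT q c hc hc1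
  have i2 := ftau_int_Mve hw' h0' hV hi' hT q c hc hc1
  have i3 : IntegrableOn (fun y => |w' y - w y| * V y) S := by
    have h1 : IntegrableOn (fun y => |w' y * V y - w y * V y|) S := (hi'.sub hi).abs
    refine h1.congr (Eventually.of_forall fun y => ?_)
    show |w' y * V y - w y * V y| = |w' y - w y| * V y
    rw [← sub_mul, abs_mul, abs_of_pos (hV0 y)]
  rw [← integral_sub i2 i1, ← Real.norm_eq_abs, ← integral_const_mul]
  refine norm_integral_le_of_norm_le (i3.const_mul _) (Eventually.of_forall fun y => ?_)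
  have e1 : c y * (tau T (w' y) ^ q * w' y * V y) - c y * (tau T (w y) ^ q * w y * V y) =
      c y * ((tau T (w' y) ^ q * w' y - tau T (w y) ^ q * w y) * V y) := by ring
  rw [e1, norm_mul, norm_mul, Real.norm_eq_abs, Real.norm_eq_abs, Real.norm_eq_abs,
    abs_of_pos (hV0 y)]
  have h1 := flip_Mve hT (h0' y) (h0 y) q
  have h2 : 0 ≤ |tau T (w' y) ^ q * w' y - tau T (w y) ^ q * w y| * V y :=
    mul_nonneg (abs_nonneg _) (hV0 y).le
  refine (mul_le_of_le_one_left h2 (hc1 y)).trans ?_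
  have h3 := mul_le_mul_of_nonneg_right h1 (hV0 y).le
  refine h3.trans (le_of_eq ?_)
  ring

/-! ### algebra -/

private theorem alg_Mve {K K' r p G lam J I J2 I2 C1 A d v : ℝ} (hK : 1 ≤ K) (hr : 0 < r)
    (hp : 0 ≤ p) (hG : G = (C1 / d) ^ 2) (hlam : lam ≤ A / d ^ 2) (hA : 0 ≤ A)
    (hK' : K' = K * (C1 ^ 2 + A + 1)) (hJ0 : 0 ≤ J) (hJI : J ≤ I) (hJ20 : 0 ≤ J2) (hJI2 : J2 ≤ I2)
    (hv : 0 ≤ v) :
    K * r ^ 2 * p * ((G + lam) * J + 0) + K * v * J2 ^ 2 ≤
      K' * r ^ 2 * p / d ^ 2 * I + K' * v * I2 ^ 2 := by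
  have h1 : G + lam ≤ (C1 ^ 2 + A + 1) / d ^ 2 := by
    rw [hG, div_pow]
    have h2 : (C1 ^ 2 + A + 1) / d ^ 2 = C1 ^ 2 / d ^ 2 + A / d ^ 2 + 1 / d ^ 2 := by ring
    have h3 : 0 ≤ 1 / d ^ 2 := by positivity
    rw [h2]
    linarith
  have hI0 : 0 ≤ I := hJ0.trans hJI
  have h4 : (G + lam) * J ≤ (C1 ^ 2 + A + 1) / d ^ 2 * I := by
    refine (mul_le_mul_of_nonneg_right h1 hJ0).trans ?_
    exact mul_le_mul_of_nonneg_left hJI (by positivity)
  have h5 : K * r ^ 2 * p * ((G + lam) * J + 0) ≤ K' * r ^ 2 * p / d ^ 2 * I := by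
    rw [add_zero]
    refine (mul_le_mul_of_nonneg_left h4 (by positivity)).trans (le_of_eq ?_)
    rw [hK']
    ring
  have h6 : J2 ^ 2 ≤ I2 ^ 2 := by
    have := hJ20.trans hJI2
    gcongr
  have hKK : K ≤ K' := by
    rw [hK']
    have : 0 ≤ K * (C1 ^ 2 + A) := by positivity
    linarith
  have h7 : K * v * J2 ^ 2 ≤ K' * v * I2 ^ 2 := by
    have h8 : K * v ≤ K' * v := mul_le_mul_of_nonneg_right hKK hv
    have h9 : 0 ≤ K' * v := by
      have : 0 ≤ K' := by linarith
      positivity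
    exact (mul_le_mul_of_nonneg_right h8 (by positivity)).trans (mul_le_mul_of_nonneg_left h6 h9)
  exact add_le_add h5 h7

private theorem lim_Mve {h : ℝ → ℝ} (hc : Continuous h) (h0 : ∀ δ > 0, 0 ≤ h δ) : 0 ≤ h 0 := by
  have h1 : Tendsto h (𝓝[>] 0) (𝓝 (h 0)) := (hc.tendsto 0).mono_left nhdsWithin_le_nhds
  refine ge_of_tendsto h1 ?_
  filter_upwards [self_mem_nhdsWithin] with δ hδ
  exact h0 δ hδ

/-! ### approximation of the norm -/

private theorem qdiff_Mve (hNrm : TNrm) {j : ℕ} (s t : Tn n j) {r : ℝ} (hr : 0 < r) :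
    |q2 s - q2 t| ≤ (2 * r + r ^ 2) * q2 t + (2 + r) * (1 + 1 / r) * q2 (s - t) := by
  obtain ⟨h1, h2, h3, h4, -⟩ := hNrm n j
  have a1 := h4 t (s - t) r hr
  have e1 : t + (s - t) = s := by abel
  rw [e1] at a1
  have a2 := h4 s (t - s) r hr
  have e2 : s + (t - s) = t := by abel
  rw [e2] at a2
  have e3 : q2 (t - s) = q2 (s - t) := by
    have := h2 (-1) (s - t)
    rw [show (-1 : ℝ) • (s - t) = t - s by simp] at this
    rw [this]
    ring
  rw [e3] at a2
  have hd0 := (h1 (s - t)).1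
  have ht0 := (h1 t).1
  have hir : 0 < 1 + 1 / r := by positivity
  have hX : 0 ≤ (1 + 1 / r) * q2 (s - t) := by positivity
  set X := (1 + 1 / r) * q2 (s - t) with hXdef
  have e4 : (2 + r) * (1 + 1 / r) * q2 (s - t) = (2 + r) * X := by rw [hXdef]; ring
  rw [e4, abs_le]
  constructor
  · nlinarith [mul_le_mul_of_nonneg_left a1 hr.le, mul_nonneg hr.le hX, mul_nonneg hr.le ht0,
      mul_nonneg (sq_nonneg r) ht0]
  · nlinarith [mul_nonneg hr.le hX, mul_nonneg hr.le ht0, mul_nonneg (sq_nonneg r) ht0]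

private theorem choose_Mve {I V δ : ℝ} (hI : 0 ≤ I) (hV : 0 ≤ V) (hδ : 0 < δ) :
    ∃ r κ : ℝ, 0 < r ∧ 0 < κ ∧ κ ≤ δ ∧
      (2 * r + r ^ 2) * I + (2 + r) * (1 + 1 / r) * κ + κ * V ≤ δ := by
  have h1 : 0 < δ / (6 * (I + 1)) := by positivity
  set r : ℝ := min 1 (δ / (6 * (I + 1))) with hr
  have hr0 : 0 < r := lt_min one_pos h1
  have hr1 : r ≤ 1 := min_le_left _ _
  have hr2 : r ≤ δ / (6 * (I + 1)) := min_le_right _ _
  have hc : 0 ≤ (2 + r) * (1 + 1 / r) := by positivity
  set c : ℝ := (2 + r) * (1 + 1 / r) + V + 1 with hcdef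
  have hc1 : 1 ≤ c := by rw [hcdef]; linarith
  have hc0 : 0 < c := by linarith
  refine ⟨r, δ / (2 * c), hr0, by positivity, ?_, ?_⟩
  · rw [div_le_iff₀ (by positivity)]
    nlinarith
  · have h2 : (2 * r + r ^ 2) * I ≤ δ / 2 := by
      have h3 : r * (6 * (I + 1)) ≤ δ := by
        rwa [le_div_iff₀ (by positivity)] at hr2
      nlinarith [mul_nonneg hr0.le hI, mul_nonneg (mul_nonneg hr0.le hI) (sub_nonneg.2 hr1)]
    have h3 : (2 + r) * (1 + 1 / r) * (δ / (2 * c)) + δ / (2 * c) * V ≤ δ / 2 := by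
      have h4 : (2 + r) * (1 + 1 / r) * (δ / (2 * c)) + δ / (2 * c) * V =
          (c - 1) * (δ / (2 * c)) := by rw [hcdef]; ring
      have h5 : c * (δ / (2 * c)) = δ / 2 := by field_simp
      have h6 : 0 < δ / (2 * c) := by positivity
      rw [h4]
      nlinarith
    linarith

theorem hMve : StDlv → TNrm → SBal → SCba → SCmi → SItm → SSue → SMve := by
  intro hDlv hNrm hBal hCba hCmi hItm hSue n m g Γ F G hg hΓ hF hC hS A hA
  obtain ⟨C1, hC1, hcba⟩ := hCba n g hg hC
  obtain ⟨K, hK1, hcmi⟩ := hCmi n g Γ hg hΓ hC hS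
  obtain ⟨hvs, hvpos, -⟩ := hDlv n g Γ hg hΓ
  have bal := hBal n g Γ hg hΓ hC
  have hvcont : Continuous (vol g) := hvs.continuous
  set K' : ℝ := K * (C1 ^ 2 + A + 1) with hK'
  have hK'1 : 1 ≤ K' := by
    have h1 : 0 ≤ K * (C1 ^ 2 + A) := by positivity
    have h2 : K' = K * (C1 ^ 2 + A) + K := by rw [hK']; ring
    linarith
  obtain ⟨C, hCpos, hitm⟩ := hItm n K' hK'1
  refine ⟨C, hCpos, ?_⟩
  intro ψ P η hψ hψ0 hP hAl hδP hη hApJ x ρ hρ hW hψz
  -- balls are contained in compact sets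
  have hcp : ∀ r, ∃ K₀ : Set (E n), IsCompact K₀ ∧ Ba g x r ⊆ K₀ := by
    intro r
    have h1 : (0 : ℝ) < max r 1 := lt_max_of_lt_right one_pos
    obtain ⟨χ, hχc, -, hχ1, -⟩ := hcba x (max r 1) (max r 1 + 1) h1 (by linarith)
    refine ⟨tsupport χ, hχc.2, ?_⟩
    intro y hy
    have h3 : dg g x y < r := hy
    have h4 := hχ1 y (h3.trans_le (le_max_left _ _))
    refine subset_tsupport χ ?_
    rw [Function.mem_support, h4]
    exact one_ne_zero
  have hq0 : ∀ y, 0 ≤ q2 (η y) := fun y => ((hNrm n (m + 1)).1 (η y)).1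
  have hwm : AEStronglyMeasurable (fun y => q2 (η y)) volume := q2_aesm_Mve hNrm hη
  have hwi : ∀ K₀ : Set (E n), IsCompact K₀ → IntegrableOn (fun y => q2 (η y) * vol g y) K₀ :=
    fun K₀ hK₀ => q2_int_Mve hNrm hη hK₀ hvcont
  have hvb : 0 < vb g x ρ := (bal x).2.2.1 ρ hρ
  have hop := (bal x).1
  have hmono : ∀ t, t ≤ ρ → Ba g x t ⊆ Ba g x ρ := fun t ht y hy => lt_of_lt_of_le hy ht
  have hcmb : Cmb g x ρ K' (fun y => q2 (η y)) := by
    intro T p s t r hT hp hs hst ht hr hrρ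
    obtain ⟨χ, hχc, hχ01, hχ1, hχsup, hχgs⟩ := hcba x s t hs hst
    have hsupρ : tsupport χ ⊆ Ba g x ρ := hχsup.trans (hmono t ht)
    have hK₀ : IsCompact (tsupport χ) := hχc.2
    have hχcont : Continuous χ := hχc.1.continuous
    have hχ2c : Continuous (fun y => χ y ^ 2) := hχcont.pow 2
    have hχ2b : ∀ y, |χ y ^ 2| ≤ 1 := by
      intro y
      obtain ⟨h1, h2⟩ := hχ01 y
      rw [abs_of_nonneg (sq_nonneg _)]
      exact pow_le_one₀ h1 h2
    have h1b : ∀ y : E n, |(fun _ : E n => (1 : ℝ)) y| ≤ 1 := by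
      intro y
      simp
    have hwiK := hwi _ hK₀
    have hlam : 0 ≤ A / ρ ^ 2 := by positivity
    set q : ℕ := 2 * p - 1 with hqdef
    set X : ℝ := ∫ y in tsupport χ, χ y ^ 2 * (tau T (q2 (η y)) ^ q * q2 (η y) * vol g y) with hX
    set J1 : ℝ := ∫ y in tsupport χ, tau T (q2 (η y)) ^ q * q2 (η y) * vol g y with hJ1
    set J2 : ℝ := ∫ y in tsupport χ, tau T (q2 (η y)) ^ (p - 1) * q2 (η y) * vol g y with hJ2
    set I0 : ℝ := ∫ y in tsupport χ, q2 (η y) * vol g y with hI0
    set V0 : ℝ := ∫ y in tsupport χ, vol g y with hV0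
    have hI0' : 0 ≤ I0 := integral_nonneg fun y => mul_nonneg (hq0 y) (hvpos y).le
    have hV0' : 0 ≤ V0 := integral_nonneg fun y => (hvpos y).le
    have hJ10 : 0 ≤ J1 := integral_nonneg fun y =>
      mul_nonneg (mul_nonneg (pow_nonneg (tau_nonneg_Mve hT (hq0 y)) _) (hq0 y)) (hvpos y).le
    have hJ20 : 0 ≤ J2 := integral_nonneg fun y =>
      mul_nonneg (mul_nonneg (pow_nonneg (tau_nonneg_Mve hT (hq0 y)) _) (hq0 y)) (hvpos y).le
    -- the inequality with errors
    have key : ∀ δ > 0, 0 ≤ K * r ^ 2 * p * (((C1 / (t - s)) ^ 2 + A / ρ ^ 2) *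
        (J1 + (q + 1) * T ^ q * δ) + δ) + K * (ρ / r) ^ n / vb g x ρ *
        (J2 + ((p - 1 : ℕ) + 1) * T ^ (p - 1) * δ) ^ 2 - (X - (q + 1) * T ^ q * δ) := by
      intro δ hδ
      obtain ⟨r', κ, hr', hκ, hκδ, hsum⟩ := choose_Mve hI0' hV0' hδ
      obtain ⟨u, hus, hual, huη, hsub⟩ := hSue n m g Γ F G hg hΓ hF ψ P η hψ hψ0 hP hAl hδP hη
        hApJ (Ba g x ρ) (A / ρ ^ 2) (hop ρ) hlam hW hψz χ hχc hsupρ κ T κ q hκ hT hκ
      have hu0 : ∀ y, 0 ≤ q2 (u y) := fun y => ((hNrm n (m + 1)).1 (u y)).1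
      have hwpos : ∀ y, 0 < q2 (u y) + κ := fun y => by have := hu0 y; linarith
      have hqs : ContDiff ℝ ∞ (fun y => q2 (u y)) := by
        unfold q2 ipt
        refine ContDiff.div_const (ContDiff.sum fun I _ => ?_) _
        have := contDiff_pi.1 hus I
        exact this.mul this
      have hws : ContDiff ℝ ∞ (fun y => q2 (u y) + κ) := hqs.add contDiff_const
      have hwc : Continuous (fun y => q2 (u y) + κ) := hws.continuous
      have hw'i : IntegrableOn (fun y => (q2 (u y) + κ) * vol g y) (tsupport χ) :=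
        (hwc.mul hvcont).continuousOn.integrableOn_compact hK₀
      have h1 := hcmi x ρ r (A / ρ ^ 2) ((C1 / (t - s)) ^ 2) T κ p (fun y => q2 (u y) + κ) χ hr hrρ
        hlam hT hκ.le hp hws hwpos hχc hχ01 hsupρ hχgs hsub
      -- the distance of `w'` and `w`
      have hdu : L2t (fun y => u y - η y) := by
        intro I
        have h2 : Continuous (fun y => u y I) := (contDiff_pi.1 hus I).continuous
        exact L2l_sub_Mve (L2l_cont_Mve h2) (hη I)
      have hdi := q2_int_Mve hNrm hdu hK₀ hvcont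
      have hvi : IntegrableOn (vol g) (tsupport χ) :=
        hvcont.continuousOn.integrableOn_compact hK₀
      have hdist : ∫ y in tsupport χ, |(q2 (u y) + κ) - q2 (η y)| * vol g y ≤ δ := by
        have h2 : ∫ y in tsupport χ, |(q2 (u y) + κ) - q2 (η y)| * vol g y ≤
            ∫ y in tsupport χ, (((2 * r' + r' ^ 2) * (q2 (η y) * vol g y) +
              (2 + r') * (1 + 1 / r') * (q2 (u y - η y) * vol g y)) + κ * vol g y) := by
          refine integral_mono_of_nonneg ?_ ?_ ?_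
          · exact Eventually.of_forall fun y => mul_nonneg (abs_nonneg _) (hvpos y).le
          · exact ((hwiK.const_mul _).add (hdi.const_mul _)).add (hvi.const_mul _)
          · refine Eventually.of_forall fun y => ?_
            have h3 := qdiff_Mve hNrm (u y) (η y) hr'
            have h4 : |(q2 (u y) + κ) - q2 (η y)| ≤ |q2 (u y) - q2 (η y)| + κ := by
              have e1 : (q2 (u y) + κ) - q2 (η y) = (q2 (u y) - q2 (η y)) + κ := by ring
              rw [e1]
              refine (abs_add_le _ _).trans ?_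
              rw [abs_of_pos hκ]
            have h5 := mul_le_mul_of_nonneg_right (h4.trans (add_le_add_left h3 κ)) (hvpos y).le
            refine h5.trans (le_of_eq ?_)
            ring
        have h3 : ∫ y in tsupport χ, (((2 * r' + r' ^ 2) * (q2 (η y) * vol g y) +
              (2 + r') * (1 + 1 / r') * (q2 (u y - η y) * vol g y)) + κ * vol g y) =
            (2 * r' + r' ^ 2) * I0 + (2 + r') * (1 + 1 / r') *
              (∫ y in tsupport χ, q2 (u y - η y) * vol g y) + κ * V0 := by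
          have e1 : ∫ y in tsupport χ, (((2 * r' + r' ^ 2) * (q2 (η y) * vol g y) +
              (2 + r') * (1 + 1 / r') * (q2 (u y - η y) * vol g y)) + κ * vol g y) =
              (∫ y in tsupport χ, ((2 * r' + r' ^ 2) * (q2 (η y) * vol g y) +
              (2 + r') * (1 + 1 / r') * (q2 (u y - η y) * vol g y))) +
              ∫ y in tsupport χ, κ * vol g y :=
            integral_add ((hwiK.const_mul _).add (hdi.const_mul _)) (hvi.const_mul _)
          have e2 : ∫ y in tsupport χ, ((2 * r' + r' ^ 2) * (q2 (η y) * vol g y) +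
              (2 + r') * (1 + 1 / r') * (q2 (u y - η y) * vol g y)) =
              (∫ y in tsupport χ, (2 * r' + r' ^ 2) * (q2 (η y) * vol g y)) +
              ∫ y in tsupport χ, (2 + r') * (1 + 1 / r') * (q2 (u y - η y) * vol g y) :=
            integral_add (hwiK.const_mul _) (hdi.const_mul _)
          rw [e1, e2, integral_const_mul, integral_const_mul, integral_const_mul]
        have h4 : (2 + r') * (1 + 1 / r') * (∫ y in tsupport χ, q2 (u y - η y) * vol g y) ≤
            (2 + r') * (1 + 1 / r') * κ := mul_le_mul_of_nonneg_left huη (by positivity)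
        rw [h3] at h2
        linarith
      have hst1 := stab_Mve hwm hq0 hwc.aestronglyMeasurable (fun y => (hwpos y).le) hvcont hvpos
        hwiK hw'i hT q (fun y => χ y ^ 2) hχ2c hχ2b
      have hst2 := stab_Mve hwm hq0 hwc.aestronglyMeasurable (fun y => (hwpos y).le) hvcont hvpos
        hwiK hw'i hT q (fun _ => 1) continuous_const h1b
      have hst3 := stab_Mve hwm hq0 hwc.aestronglyMeasurable (fun y => (hwpos y).le) hvcont hvpos
        hwiK hw'i hT (p - 1) (fun _ => 1) continuous_const h1b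
      simp only [one_mul] at hst2 hst3
      have hb1 : (q + 1 : ℝ) * T ^ q * (∫ y in tsupport χ, |(q2 (u y) + κ) - q2 (η y)| * vol g y) ≤
          (q + 1) * T ^ q * δ := mul_le_mul_of_nonneg_left hdist (by positivity)
      have hb2 : (((p - 1 : ℕ) : ℝ) + 1) * T ^ (p - 1) *
          (∫ y in tsupport χ, |(q2 (u y) + κ) - q2 (η y)| * vol g y) ≤
          ((p - 1 : ℕ) + 1) * T ^ (p - 1) * δ := mul_le_mul_of_nonneg_left hdist (by positivity)
      have hc1 := (abs_le.1 (hst1.trans hb1)).1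
      have hc2 := (abs_le.1 (hst2.trans hb1)).2
      have hc3 := (abs_le.1 (hst3.trans hb2)).2
      -- left side
      have hL : ∫ y, χ y ^ 2 * tau T (q2 (u y) + κ) ^ q * (q2 (u y) + κ) * vol g y =
          ∫ y in tsupport χ, χ y ^ 2 * (tau T (q2 (u y) + κ) ^ q * (q2 (u y) + κ) * vol g y) := by
        rw [setIntegral_eq_integral_of_forall_compl_eq_zero]
        · refine integral_congr_ae (Eventually.of_forall fun y => ?_)
          show χ y ^ 2 * tau T (q2 (u y) + κ) ^ q * (q2 (u y) + κ) * vol g y =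
            χ y ^ 2 * (tau T (q2 (u y) + κ) ^ q * (q2 (u y) + κ) * vol g y)
          ring
        · intro y hy
          rw [image_eq_zero_of_notMem_tsupport hy]
          ring
      have hL' : X - (q + 1) * T ^ q * δ ≤
          ∫ y, χ y ^ 2 * tau T (q2 (u y) + κ) ^ q * (q2 (u y) + κ) * vol g y := by
        rw [hL]
        linarith
      -- right side
      have hR1 : 0 ≤ ∫ y in tsupport χ, tau T (q2 (u y) + κ) ^ (p - 1) * (q2 (u y) + κ) * vol g y :=
        integral_nonneg fun y => mul_nonneg (mul_nonneg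
          (pow_nonneg (tau_nonneg_Mve hT (hwpos y).le) _) (hwpos y).le) (hvpos y).le
      have hR2 : (∫ y in tsupport χ, tau T (q2 (u y) + κ) ^ (p - 1) * (q2 (u y) + κ) * vol g y) ^ 2 ≤
          (J2 + ((p - 1 : ℕ) + 1) * T ^ (p - 1) * δ) ^ 2 := by
        refine pow_le_pow_left₀ hR1 ?_ 2
        linarith
      have hR3 : ((C1 / (t - s)) ^ 2 + A / ρ ^ 2) *
          (∫ y in tsupport χ, tau T (q2 (u y) + κ) ^ q * (q2 (u y) + κ) * vol g y) + κ ≤
          ((C1 / (t - s)) ^ 2 + A / ρ ^ 2) * (J1 + (q + 1) * T ^ q * δ) + δ := by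
        refine add_le_add (mul_le_mul_of_nonneg_left ?_ (by positivity)) hκδ
        linarith
      have hK0 : 0 ≤ K * r ^ 2 * p := by positivity
      have hK2 : 0 ≤ K * (ρ / r) ^ n / vb g x ρ := by positivity
      have hR4 := mul_le_mul_of_nonneg_left hR3 hK0
      have hR5 := mul_le_mul_of_nonneg_left hR2 hK2
      have hfin := hL'.trans (h1.trans (add_le_add hR4 hR5))
      linarith
    have hlim := lim_Mve (h := fun δ => K * r ^ 2 * p * (((C1 / (t - s)) ^ 2 + A / ρ ^ 2) *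
        (J1 + (q + 1) * T ^ q * δ) + δ) + K * (ρ / r) ^ n / vb g x ρ *
        (J2 + ((p - 1 : ℕ) + 1) * T ^ (p - 1) * δ) ^ 2 - (X - (q + 1) * T ^ q * δ))
        (by fun_prop) key
    simp only [mul_zero, add_zero, sub_zero] at hlim
    -- conclusion
    have hs1 : Ba g x s ⊆ tsupport χ := by
      intro y hy
      refine subset_tsupport χ ?_
      rw [Function.mem_support, hχ1 y hy]
      exact one_ne_zero
    have hstep1 : ∫ y in Ba g x s, tau T (q2 (η y)) ^ q * q2 (η y) * vol g y ≤ X := by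
      have h3 : ∫ y in Ba g x s, tau T (q2 (η y)) ^ q * q2 (η y) * vol g y =
          ∫ y in Ba g x s, χ y ^ 2 * (tau T (q2 (η y)) ^ q * q2 (η y) * vol g y) := by
        refine setIntegral_congr_fun (hop s).measurableSet ?_
        intro y hy
        have h4 := hχ1 y hy
        simp only [h4]
        ring
      rw [h3, hX]
      refine setIntegral_mono_set (ftau_int_Mve hwm hq0 hvcont hwiK hT q _ hχ2c hχ2b) ?_
        hs1.eventuallyLE
      refine ae_of_all _ fun y => ?_
      exact mul_nonneg (sq_nonneg _) (mul_nonneg (mul_nonneg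
        (pow_nonneg (tau_nonneg_Mve hT (hq0 y)) _) (hq0 y)) (hvpos y).le)
    obtain ⟨K₂, hK₂c, hK₂⟩ := hcp t
    have hstep2 : ∀ q' : ℕ, ∫ y in tsupport χ, tau T (q2 (η y)) ^ q' * q2 (η y) * vol g y ≤
        ∫ y in Ba g x t, tau T (q2 (η y)) ^ q' * q2 (η y) * vol g y := by
      intro q'
      have h5 := ftau_int_Mve hwm hq0 hvcont ((hwi K₂ hK₂c).mono_set hK₂) hT q' (fun _ => 1)
        continuous_const h1b
      simp only [one_mul] at h5
      refine setIntegral_mono_set h5 (ae_of_all _ fun y => ?_) hχsup.eventuallyLE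
      exact mul_nonneg (mul_nonneg (pow_nonneg (tau_nonneg_Mve hT (hq0 y)) _) (hq0 y)) (hvpos y).le
    have hts : 0 < t - s := by linarith
    have h5 : A / ρ ^ 2 ≤ A / (t - s) ^ 2 := by
      have h6 : t - s ≤ ρ := by linarith
      have h7 : (t - s) ^ 2 ≤ ρ ^ 2 := by gcongr
      exact div_le_div_of_nonneg_left hA (by positivity) h7
    have h6 := alg_Mve (K := K) (K' := K') (r := r) (p := (p : ℝ)) (G := (C1 / (t - s)) ^ 2)
      (lam := A / ρ ^ 2) (J := J1) (I := ∫ y in Ba g x t, tau T (q2 (η y)) ^ q * q2 (η y) * vol g y)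
      (J2 := J2) (I2 := ∫ y in Ba g x t, tau T (q2 (η y)) ^ (p - 1) * q2 (η y) * vol g y) (C1 := C1)
      (A := A) (d := t - s) (v := (ρ / r) ^ n / vb g x ρ)
      hK1 hr (by positivity) rfl h5 hA hK' hJ10 (hstep2 q) hJ20 (hstep2 (p - 1)) (by positivity)
    have h7 : K * (ρ / r) ^ n / vb g x ρ = K * ((ρ / r) ^ n / vb g x ρ) := by ring
    have h8 : K' * (ρ / r) ^ n / vb g x ρ = K' * ((ρ / r) ^ n / vb g x ρ) := by ring
    rw [h7] at hlim
    rw [h8]
    rw [add_zero] at h6
    linarith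
  obtain ⟨K₃, hK₃c, hK₃⟩ := hcp ρ
  exact hitm g Γ hg hΓ hC x ρ (fun y => q2 (η y)) hρ hq0 hwm ((hwi K₃ hK₃c).mono_set hK₃) hcmb

end Pool.Agent.Helper1.QD
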